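import Pool.Agent.Helper99.CA.Main
import Pool.Agent.Helper99.CA.FSecond
import Pool.Agent.Helper72.BinHalf
import Pool.Agent.Helper39.CC.Cor
import Pool.Agent.Helper39.CC.Second

/-!
# MP_c89645_pr: the critical number of colours is of the order `d / (θ - 1)`
-/

open MeasureTheory Set
open Pool.Agent.Helper94.CCA Pool.Agent.Helper99.CA

namespace Pool.Agent.Results.MP_c89645_pr.CriticalWindow

theorem bt_eq (D : ℕ) : ∀ (m : ℕ) (p : ℝ), bt D m p = Pool.Agent.Helper72.BinHalf.bt D m p := by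
  induction D with
  | zero => intro m p; cases m <;> rfl
  | succ D ih =>
    intro m p
    cases m with
    | zero => rfl
    | succ m =>
      change p * bt D m p + (1 - p) * bt D (m + 1) p =
        p * Pool.Agent.Helper72.BinHalf.bt D m p +
          (1 - p) * Pool.Agent.Helper72.BinHalf.bt D (m + 1) p
      rw [ih, ih]

theorem ghm_zero {V : Type*} (G : SimpleGraph V) (hG : G.IsTree) (d : ℕ)
    (hdeg : ∀ v, (G.neighborSet v).ncard = d + 1) (θ κ : ℕ) [NeZero κ] (hκ : 3 ≤ κ)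
    (hθ : 2 ≤ θ) (hd : 1 ≤ d) (ρ : V) (h : d ≤ κ * (θ - 1)) :
    law V κ {ω | Fluct (ghmStep G κ θ) ω ρ} = 0 := by
  rw [(transfer G hG d hd hdeg κ θ ρ).2]
  refine ghm_fix_of_half hκ hd hθ h ?_
  have h3 := Pool.Agent.Helper72.BinHalf.bt_half (θ - 1) κ (by omega) (by omega)
  rw [bt_eq]
  have e : θ - 1 + 1 = θ := by omega
  rwa [e] at h3

/-- On the `(d + 1)`-regular tree, for `d ≥ θ ≥ 2` and `κ ≥ 3`: the probability that the state of
`ρ` changes infinitely often is `0` for the GHM if `d ≤ κ (θ - 1)`; `0` for the CCA if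
`15 d ≤ κ (θ - 1)` or `d ≤ κ (θ - 5/2 √(θ ln θ))`; and `1` for both if `d ≥ 4 κ (θ - 1)` or
`d ≥ κ (θ + 3 √(θ ln θ))`, and then almost surely every vertex advances in every step from some
time on. -/
theorem result {V : Type*} (G : SimpleGraph V) (hG : G.IsTree) (d : ℕ)
    (hdeg : ∀ v, (G.neighborSet v).ncard = d + 1) (θ κ : ℕ) [NeZero κ] (hκ : 3 ≤ κ)
    (hθ : 2 ≤ θ) (hθd : θ ≤ d) (ρ : V) :
    (d ≤ κ * (θ - 1) → law V κ {ω | Fluct (ghmStep G κ θ) ω ρ} = 0) ∧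
    ((15 * d ≤ κ * (θ - 1) ∨ (d : ℝ) ≤ κ * (θ - 5 / 2 * √(θ * Real.log θ))) →
      law V κ {ω | Fluct (ccaStep G κ θ) ω ρ} = 0) ∧
    ((4 * (κ * (θ - 1)) ≤ d ∨ κ * (θ + 3 * √(θ * Real.log θ)) ≤ (d : ℝ)) →
      law V κ {ω | Fluct (ccaStep G κ θ) ω ρ} = 1 ∧
      law V κ {ω | Fluct (ghmStep G κ θ) ω ρ} = 1 ∧
      (∀ᵐ ω ∂law V κ, ∀ v, ∃ T, ∀ t, T ≤ t →
        (ccaStep G κ θ)^[t + 1] ω v = (ccaStep G κ θ)^[t] ω v + 1) ∧
      (∀ᵐ ω ∂law V κ, ∀ v, ∃ T, ∀ t, T ≤ t →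
        (ghmStep G κ θ)^[t + 1] ω v = (ghmStep G κ θ)^[t] ω v + 1)) := by
  have hd : 1 ≤ d := by omega
  refine ⟨fun h => ghm_zero G hG d hdeg θ κ hκ hθ hd ρ h, fun h => ?_, fun h => ?_⟩
  · rcases h with h | h
    · exact Pool.Agent.Helper39.CC.cca_fix_fifteen G hG d hd hdeg κ θ hκ hθ h ρ
    · exact Pool.Agent.Helper39.CC.cca_fix_second G hG d hd hdeg κ θ hκ hθ h ρ
  · have hF : ∀ F : (Vert d → Fin κ) → Vert d → Fin κ, Adv θ F →
        (law (Vert d) κ) {ω | ¬ EvAdv F ω root} = 0 := by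
      intro F hF
      rcases h with h | h
      · exact fluct_four hκ hθ h hF
      · exact fluct_second hκ hθ h hF
    have h1 := both_one G hG d hd hdeg κ θ (by omega) ρ hF
    have h2 := both_ae G hG d hd hdeg κ θ hF
    exact ⟨h1.1, h1.2, h2.1, h2.2⟩

end Pool.Agent.Results.MP_c89645_pr.CriticalWindow
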