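import Pool.Agent.Helper94.CCA.Transfer
import Pool.Agent.Helper94.CCA.Bridge
import Pool.Agent.Helper94.CCA.ZeroOne
import Pool.Agent.Helper94.CCA.CcaEnd
import Pool.Agent.Helper94.CCA.GhmEnd

/-!
# MP_c89645_pr: the fluctuation probability is 0 or 1 when `2 θ ≥ d + 1`
-/

open MeasureTheory Set
open Pool.Agent.Helper94.CCA

namespace Pool.Agent.Results.MP_c89645_pr.HalfThreshold

/-- On the `(d + 1)`-regular tree, for `2 θ ≥ d + 1` and every `κ ≥ 3`, the probability that the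
state of `ρ` changes infinitely often is `0` or `1` for the CCA and for the GHM, and it is `0` if
`2 θ ≥ d + 2`. -/
theorem result {V : Type*} (G : SimpleGraph V) (hG : G.IsTree) (d : ℕ) (hd : 2 ≤ d)
    (hdeg : ∀ v, (G.neighborSet v).ncard = d + 1) (θ κ : ℕ) [NeZero κ] (hκ : 3 ≤ κ)
    (hθ : d + 1 ≤ 2 * θ) (ρ : V) :
    (MeasurableSet {ω : V → Fin κ | Fluct (ccaStep G κ θ) ω ρ} ∧
      (law V κ {ω | Fluct (ccaStep G κ θ) ω ρ} = 0 ∨
        law V κ {ω | Fluct (ccaStep G κ θ) ω ρ} = 1) ∧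
      (d + 2 ≤ 2 * θ → law V κ {ω | Fluct (ccaStep G κ θ) ω ρ} = 0)) ∧
    (MeasurableSet {ω : V → Fin κ | Fluct (ghmStep G κ θ) ω ρ} ∧
      (law V κ {ω | Fluct (ghmStep G κ θ) ω ρ} = 0 ∨
        law V κ {ω | Fluct (ghmStep G κ θ) ω ρ} = 1) ∧
      (d + 2 ≤ 2 * θ → law V κ {ω | Fluct (ghmStep G κ θ) ω ρ} = 0)) := by
  obtain ⟨hV, L, hL⟩ := exists_lab G hG (by omega) hdeg
  rw [ccaStep_eq hL κ θ, ghmStep_eq hL κ θ]
  refine ⟨⟨measurableSet_fluct (measurable_ccaL L κ θ) ρ,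
    zero_one_of_spreads L (measurable_ccaL L κ θ) (equi_ccaL L κ θ)
      (cca_spreads hκ L θ hθ) ρ, fun h => ?_⟩,
    ⟨measurableSet_fluct (measurable_ghmL L κ θ) ρ,
    zero_one_of_spreads L (measurable_ghmL L κ θ) (equi_ghmL L κ θ)
      (ghm_spreads hκ L θ hθ) ρ, fun h => ?_⟩⟩
  · have h1 := cca_fixates hκ L θ (by omega) ρ
    rw [ae_iff] at h1
    simpa using h1
  · have h1 := ghm_fixates hκ L θ (by omega) ρ
    rw [ae_iff] at h1
    simpa using h1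

end Pool.Agent.Results.MP_c89645_pr.HalfThreshold
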